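import Mathlib

/-!
# An orbit with two convergents per period

`k = 22`, `d = 14/3`, `x₀ = 4`.
-/

set_option autoImplicit false

namespace Pool.Agent.Results.MP_f17d28_nt.TwoPerPeriod

open OnePoint

/-- The map `f_d(x) = (d x + k) / (x + d)` on `ℚ ∪ {∞}`, with `f(∞) = d` and `f(-d) = ∞`. -/
def fdFun (k d : ℚ) : OnePoint ℚ → OnePoint ℚ
  | ∞ => (d : OnePoint ℚ)
  | (x : ℚ) => if x + d = 0 then ∞ else (((d * x + k) / (x + d) : ℚ) : OnePoint ℚ)

/-- The inverse map. -/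
def fdInv (k d : ℚ) : OnePoint ℚ → OnePoint ℚ
  | ∞ => ((-d : ℚ) : OnePoint ℚ)
  | (x : ℚ) => if d - x = 0 then ∞ else (((d * x - k) / (d - x) : ℚ) : OnePoint ℚ)

theorem fdFun_infty (k d : ℚ) : fdFun k d ∞ = (d : OnePoint ℚ) := rfl

theorem fdFun_coe (k d x : ℚ) : fdFun k d (x : OnePoint ℚ) =
    if x + d = 0 then ∞ else (((d * x + k) / (x + d) : ℚ) : OnePoint ℚ) := rfl

theorem fdInv_infty (k d : ℚ) : fdInv k d ∞ = ((-d : ℚ) : OnePoint ℚ) := rfl

theorem fdInv_coe (k d x : ℚ) : fdInv k d (x : OnePoint ℚ) =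
    if d - x = 0 then ∞ else (((d * x - k) / (d - x) : ℚ) : OnePoint ℚ) := rfl

theorem inv_fun (k d : ℚ) (h : d ^ 2 ≠ k) (x : OnePoint ℚ) : fdInv k d (fdFun k d x) = x := by
  have h' : d ^ 2 - k ≠ 0 := sub_ne_zero.2 h
  induction x using OnePoint.rec with
  | infty => rw [fdFun_infty, fdInv_coe, if_pos (sub_self d)]
  | coe x =>
    rw [fdFun_coe]
    by_cases hx : x + d = 0
    · rw [if_pos hx, fdInv_infty]
      congr 1
      linarith
    · rw [if_neg hx, fdInv_coe]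
      have h1 : d - (d * x + k) / (x + d) = (d ^ 2 - k) / (x + d) := by
        field_simp
        ring
      have h2 : d * ((d * x + k) / (x + d)) - k = x * (d ^ 2 - k) / (x + d) := by
        field_simp
        ring
      rw [h1, h2, if_neg (div_ne_zero h' hx)]
      congr 1
      field_simp

theorem fun_inv (k d : ℚ) (h : d ^ 2 ≠ k) (x : OnePoint ℚ) : fdFun k d (fdInv k d x) = x := by
  have h' : d ^ 2 - k ≠ 0 := sub_ne_zero.2 h
  induction x using OnePoint.rec with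
  | infty => rw [fdInv_infty, fdFun_coe, if_pos (neg_add_cancel d)]
  | coe x =>
    rw [fdInv_coe]
    by_cases hx : d - x = 0
    · rw [if_pos hx, fdFun_infty]
      congr 1
      linarith
    · rw [if_neg hx, fdFun_coe]
      have h1 : (d * x - k) / (d - x) + d = (d ^ 2 - k) / (d - x) := by
        field_simp
        ring
      have h2 : d * ((d * x - k) / (d - x)) + k = x * (d ^ 2 - k) / (d - x) := by
        field_simp
        ring
      rw [h1, h2, if_neg (div_ne_zero h' hx)]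
      congr 1
      field_simp

/-- The map `f_d` as a bijection of `ℚ ∪ {∞}` (`d² ≠ k`). -/
def fd (k d : ℚ) (h : d ^ 2 ≠ k) : Equiv.Perm (OnePoint ℚ) where
  toFun := fdFun k d
  invFun := fdInv k d
  left_inv := inv_fun k d h
  right_inv := fun_inv k d h

/-- The complete quotients of `√k`. -/
noncomputable def cq (k : ℕ) : ℕ → ℝ
  | 0 => Real.sqrt k
  | n + 1 => 1 / (cq k n - ⌊cq k n⌋)

/-- The partial quotients of `√k`: `√k = [c₀; c₁, c₂, ...]`. -/
noncomputable def c (k n : ℕ) : ℤ := ⌊cq k n⌋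

/-- The value `[a₀; a₁, ..., aₙ]` of a finite continued fraction. -/
def cfVal : List ℤ → ℚ
  | [] => 0
  | [a] => a
  | a :: b :: l => a + 1 / cfVal (b :: l)

/-- The convergent `p_j / q_j = [c₀; c₁, ..., c_{j-1}]` of `√k`, for `j ≥ 1`. -/
noncomputable def conv (k j : ℕ) : ℚ := cfVal ((List.range j).map (c k))

/-- `L` is the minimal period length of the continued fraction of `√k`. -/
def IsMinPeriod (k L : ℕ) : Prop :=
  1 ≤ L ∧ (∀ n, 1 ≤ n → c k (n + L) = c k n) ∧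
    ∀ M, 1 ≤ M → (∀ n, 1 ≤ n → c k (n + M) = c k n) → L ≤ M

/-! ### The continued fraction of `√22` -/

theorem sq22 : Real.sqrt 22 * Real.sqrt 22 = 22 := Real.mul_self_sqrt (by norm_num)

theorem lo22 : (4.69 : ℝ) < Real.sqrt 22 := by
  rw [Real.lt_sqrt (by norm_num)]
  norm_num

theorem hi22 : Real.sqrt 22 < 4.7 := by
  rw [Real.sqrt_lt' (by norm_num)]
  norm_num

theorem step {x y : ℝ} {a : ℤ} (h1 : (a : ℝ) ≤ x) (h2 : x < a + 1) (h3 : 1 / (x - a) = y) :
    ⌊x⌋ = a ∧ 1 / (x - ⌊x⌋) = y := by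
  have h : ⌊x⌋ = a := Int.floor_eq_iff.2 ⟨h1, h2⟩
  exact ⟨h, by rw [h]; exact h3⟩

theorem cq_step {n : ℕ} {x y : ℝ} {a : ℤ} (hx : cq 22 n = x) (h1 : (a : ℝ) ≤ x) (h2 : x < a + 1)
    (h3 : 1 / (x - a) = y) : c 22 n = a ∧ cq 22 (n + 1) = y := by
  obtain ⟨h4, h5⟩ := step h1 h2 h3
  refine ⟨by rw [c, hx]; exact h4, ?_⟩
  rw [cq, hx]
  exact h5

theorem cq0 : cq 22 0 = Real.sqrt 22 := by simp [cq]

theorem block {n : ℕ} (h : cq 22 n = Real.sqrt 22 + 4 ∨ (n = 0 ∧ cq 22 n = Real.sqrt 22)) :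
    c 22 (n + 1) = 1 ∧ c 22 (n + 2) = 2 ∧ c 22 (n + 3) = 4 ∧ c 22 (n + 4) = 2 ∧
      c 22 (n + 5) = 1 ∧ cq 22 (n + 6) = Real.sqrt 22 + 4 := by
  have hs := sq22
  have hlo := lo22
  have hhi := hi22
  set s := Real.sqrt 22 with hsdef
  have h1 : cq 22 (n + 1) = (s + 4) / 6 := by
    rcases h with h | ⟨_, h⟩
    · refine (cq_step (a := 8) h (by push_cast; linarith) (by push_cast; linarith) ?_).2
      push_cast
      rw [div_eq_div_iff (by intro h'; linarith) (by norm_num)]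
      nlinarith
    · refine (cq_step (a := 4) h (by push_cast; linarith) (by push_cast; linarith) ?_).2
      push_cast
      rw [div_eq_div_iff (by intro h'; linarith) (by norm_num)]
      nlinarith
  obtain ⟨c1, h2⟩ := cq_step (a := 1) (y := (s + 2) / 3) h1 (by push_cast; linarith)
    (by push_cast; linarith) (by
      push_cast
      rw [div_eq_div_iff (by intro h'; linarith) (by norm_num)]
      nlinarith)
  obtain ⟨c2, h3⟩ := cq_step (a := 2) (y := (s + 4) / 2) h2 (by push_cast; linarith)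
    (by push_cast; linarith) (by
      push_cast
      rw [div_eq_div_iff (by intro h'; linarith) (by norm_num)]
      nlinarith)
  obtain ⟨c3, h4⟩ := cq_step (a := 4) (y := (s + 4) / 3) h3 (by push_cast; linarith)
    (by push_cast; linarith) (by
      push_cast
      rw [div_eq_div_iff (by intro h'; linarith) (by norm_num)]
      nlinarith)
  obtain ⟨c4, h5⟩ := cq_step (a := 2) (y := (s + 2) / 6) h4 (by push_cast; linarith)
    (by push_cast; linarith) (by
      push_cast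
      rw [div_eq_div_iff (by intro h'; linarith) (by norm_num)]
      nlinarith)
  obtain ⟨c5, h6⟩ := cq_step (a := 1) (y := s + 4) h5 (by push_cast; linarith)
    (by push_cast; linarith) (by
      push_cast
      rw [div_eq_iff (by intro h'; linarith)]
      nlinarith)
  exact ⟨c1, c2, c3, c4, c5, h6⟩

theorem cq_six (m : ℕ) : cq 22 (6 * m + 6) = Real.sqrt 22 + 4 := by
  induction m with
  | zero => exact (block (n := 0) (Or.inr ⟨rfl, cq0⟩)).2.2.2.2.2
  | succ m ih => exact (block (n := 6 * m + 6) (Or.inl ih)).2.2.2.2.2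

theorem c_zero : c 22 0 = 4 := by
  have hlo := lo22
  have hhi := hi22
  rw [c, cq0, Int.floor_eq_iff]
  constructor <;> push_cast <;> linarith

theorem c_six (m : ℕ) : c 22 (6 * m + 6) = 8 := by
  have hlo := lo22
  have hhi := hi22
  rw [c, cq_six, Int.floor_eq_iff]
  constructor <;> push_cast <;> linarith

theorem blocks (m : ℕ) : c 22 (6 * m + 1) = 1 ∧ c 22 (6 * m + 2) = 2 ∧ c 22 (6 * m + 3) = 4 ∧
    c 22 (6 * m + 4) = 2 ∧ c 22 (6 * m + 5) = 1 := by
  cases m with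
  | zero =>
    obtain ⟨h1, h2, h3, h4, h5, _⟩ := block (n := 0) (Or.inr ⟨rfl, cq0⟩)
    exact ⟨h1, h2, h3, h4, h5⟩
  | succ m =>
    obtain ⟨h1, h2, h3, h4, h5, _⟩ := block (n := 6 * m + 6) (Or.inl (cq_six m))
    exact ⟨h1, h2, h3, h4, h5⟩

theorem period : ∀ n, 1 ≤ n → c 22 (n + 6) = c 22 n := by
  intro n hn
  obtain ⟨m, r, hr, rfl⟩ : ∃ m r, r < 6 ∧ n = 6 * m + (r + 1) :=
    ⟨(n - 1) / 6, (n - 1) % 6, Nat.mod_lt _ (by norm_num), by omega⟩
  obtain ⟨h1, h2, h3, h4, h5⟩ := blocks m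
  obtain ⟨k1, k2, k3, k4, k5⟩ := blocks (m + 1)
  have h6 := c_six m
  have k6 := c_six (m + 1)
  have e : 6 * (m + 1) = 6 * m + 6 := by ring
  rw [e] at k1 k2 k3 k4 k5 k6
  interval_cases r
  · rw [show 6 * m + (0 + 1) + 6 = 6 * m + 6 + 1 by ring, k1, h1]
  · rw [show 6 * m + (1 + 1) + 6 = 6 * m + 6 + 2 by ring, k2, h2]
  · rw [show 6 * m + (2 + 1) + 6 = 6 * m + 6 + 3 by ring, k3, h3]
  · rw [show 6 * m + (3 + 1) + 6 = 6 * m + 6 + 4 by ring, k4, h4]
  · rw [show 6 * m + (4 + 1) + 6 = 6 * m + 6 + 5 by ring, k5, h5]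
  · rw [show 6 * m + (5 + 1) + 6 = 6 * m + 6 + 6 by ring, k6, h6]

theorem isMinPeriod : IsMinPeriod 22 6 := by
  refine ⟨by norm_num, period, ?_⟩
  intro M hM h
  by_contra hlt
  push Not at hlt
  obtain ⟨h1, h2, h3, h4, h5⟩ := blocks 0
  have h6 := c_six 0
  norm_num at h1 h2 h3 h4 h5 h6
  have e1 := h 1 le_rfl
  have e2 := h 2 (by norm_num)
  interval_cases M
  · rw [h1] at e1; norm_num [h2] at e1
  · rw [h1] at e1; norm_num [h3] at e1
  · rw [h1] at e1; norm_num [h4] at e1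
  · rw [h2] at e2; norm_num [h6] at e2
  · rw [h1] at e1; norm_num [h6] at e1

theorem conv_one : conv 22 1 = 4 := by
  simp [conv, List.range_succ, cfVal, c_zero]

theorem conv_four : conv 22 4 = 61 / 13 := by
  obtain ⟨h1, h2, h3, h4, h5⟩ := blocks 0
  norm_num at h1 h2 h3
  simp only [conv, List.range_succ, List.range_zero, List.nil_append,
    List.map_cons, List.map_nil, List.cons_append, cfVal, c_zero, h1, h2, h3]
  norm_num

/-! ### The orbit -/

theorem hd : (14 / 3 : ℚ) ^ 2 ≠ 22 := by norm_num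

/-- the invariant set containing the orbit of infinity -/
def S : Set (OnePoint ℚ) :=
  {y | ∀ x : ℚ, y = (x : OnePoint ℚ) → ∃ r : ℚ, x ^ 2 - 22 = r ^ 2 ∨ x ^ 2 - 22 = -2 * r ^ 2}

theorem S_step {x e u : ℚ} (he : x + e ≠ 0) (hu : u = (e * x + 22) / (x + e))
    (hee : e ^ 2 = 196 / 9) (h : ∃ r : ℚ, x ^ 2 - 22 = r ^ 2 ∨ x ^ 2 - 22 = -2 * r ^ 2) :
    ∃ r : ℚ, u ^ 2 - 22 = r ^ 2 ∨ u ^ 2 - 22 = -2 * r ^ 2 := by
  have key : u ^ 2 - 22 = (x ^ 2 - 22) * (-2 / 9) / (x + e) ^ 2 := by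
    have h1 : (-2 / 9 : ℚ) = e ^ 2 - 22 := by rw [hee]; norm_num
    rw [hu, h1]
    field_simp
    ring
  obtain ⟨r, hr | hr⟩ := h
  · refine ⟨r / (3 * (x + e)), Or.inr ?_⟩
    rw [key, hr]
    field_simp
    ring
  · refine ⟨2 * r / (3 * (x + e)), Or.inl ?_⟩
    rw [key, hr]
    field_simp
    ring

theorem infty_mem : (∞ : OnePoint ℚ) ∈ S := by
  intro x hx
  exact absurd hx.symm (OnePoint.coe_ne_infty x)

theorem fun_mem {y : OnePoint ℚ} (hy : y ∈ S) : fdFun 22 (14 / 3) y ∈ S := by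
  induction y using OnePoint.rec with
  | infty =>
    intro x hx
    rw [fdFun_infty] at hx
    have := OnePoint.coe_injective hx
    refine ⟨1 / 3, Or.inr ?_⟩
    rw [← this]
    norm_num
  | coe z =>
    intro x hx
    rw [fdFun_coe] at hx
    by_cases hz : z + 14 / 3 = 0
    · rw [if_pos hz] at hx
      exact absurd hx.symm (OnePoint.coe_ne_infty x)
    · rw [if_neg hz] at hx
      have := OnePoint.coe_injective hx
      exact S_step hz this.symm (by norm_num) (hy z rfl)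

theorem inv_mem {y : OnePoint ℚ} (hy : y ∈ S) : fdInv 22 (14 / 3) y ∈ S := by
  induction y using OnePoint.rec with
  | infty =>
    intro x hx
    rw [fdInv_infty] at hx
    have := OnePoint.coe_injective hx
    refine ⟨1 / 3, Or.inr ?_⟩
    rw [← this]
    norm_num
  | coe z =>
    intro x hx
    rw [fdInv_coe] at hx
    by_cases hz : (14 / 3 : ℚ) - z = 0
    · rw [if_pos hz] at hx
      exact absurd hx.symm (OnePoint.coe_ne_infty x)
    · rw [if_neg hz] at hx
      have := OnePoint.coe_injective hx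
      have hz' : z + (-14 / 3 : ℚ) ≠ 0 := by
        intro h
        apply hz
        linarith
      refine S_step hz' ?_ (by norm_num) (hy z rfl)
      rw [← this, div_eq_div_iff hz hz']
      ring

theorem zpow_mem (n : ℤ) : (fd 22 (14 / 3) hd ^ n) ∞ ∈ S := by
  induction n using Int.induction_on with
  | zero => exact infty_mem
  | succ n ih =>
    rw [add_comm, zpow_add, zpow_one, Equiv.Perm.mul_apply]
    exact fun_mem ih
  | pred n ih =>
    rw [sub_eq_add_neg, add_comm, zpow_add, zpow_neg_one, Equiv.Perm.mul_apply]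
    exact inv_mem ih

theorem four_not_mem : ((4 : ℚ) : OnePoint ℚ) ∉ S := by
  intro h
  obtain ⟨r, hr | hr⟩ := h 4 rfl
  · have := sq_nonneg r
    norm_num at hr
    linarith
  · have h1 : r ^ 2 = 3 := by linarith
    have h2 : IsSquare (3 : ℚ) := ⟨r, by rw [← h1]; ring⟩
    have h3 : ¬ IsSquare (3 : ℚ) := by
      rw [show (3 : ℚ) = ((3 : ℕ) : ℚ) by norm_num, Rat.isSquare_natCast_iff]
      decide +kernel
    exact h3 h2

/-- There are a positive integer `k` which is not a square and a positive rational `d` with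
`R = 4 d² / (k - d²)` an integer, and a rational `x₀` outside the orbit of `∞` under `f_d` (in
both directions) such that the forward orbit of `x₀` contains two convergents `p_i / q_i` and
`p_j / q_j` of `√k` with `i` and `j` not congruent modulo the minimal period length. Explicitly
`k = 22`, `d = 14/3`, `x₀ = 4 = p₁/q₁`, `f_d(x₀) = 61/13 = p₄/q₄`, and the period is `6`. -/
theorem result :
    ∃ (k : ℕ) (d : ℚ) (h : d ^ 2 ≠ k), 0 < k ∧ ¬ IsSquare k ∧ 0 < d ∧
      (∃ R : ℤ, (R : ℚ) = 4 * d ^ 2 / (k - d ^ 2)) ∧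
      ∃ x₀ : ℚ, (∀ n : ℤ, (fd k d h ^ n) ∞ ≠ (x₀ : OnePoint ℚ)) ∧
        ∃ L : ℕ, IsMinPeriod k L ∧ ∃ i j : ℕ, 1 ≤ i ∧ 1 ≤ j ∧ ¬ i ≡ j [MOD L] ∧
          (∃ n : ℕ, (fd k d h ^ n) (x₀ : OnePoint ℚ) = ((conv k i : ℚ) : OnePoint ℚ)) ∧
          ∃ n : ℕ, (fd k d h ^ n) (x₀ : OnePoint ℚ) = ((conv k j : ℚ) : OnePoint ℚ) := by
  refine ⟨22, 14 / 3, hd, by norm_num, by decide +kernel, by norm_num, ⟨392, by norm_num⟩, 4, ?_,
    6, isMinPeriod, 1, 4, le_rfl, by norm_num, by decide, ⟨0, ?_⟩, ⟨1, ?_⟩⟩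
  · intro n hn
    have h1 := zpow_mem n
    apply four_not_mem
    rw [← hn]
    exact h1
  · rw [pow_zero, conv_one]
    rfl
  · rw [pow_one, conv_four]
    change fdFun ((22 : ℕ) : ℚ) (14 / 3) ((4 : ℚ) : OnePoint ℚ) = _
    rw [fdFun_coe, if_neg (by norm_num)]
    congr 1
    norm_num

end Pool.Agent.Results.MP_f17d28_nt.TwoPerPeriod
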